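import Pool.Agent.LKU.Stmts

/-!
# Row WLZ of squad LKU: the wall of the two end links
-/

set_option autoImplicit false

namespace Pool.Agent.LKU.H32

open Pool.Agent.LCK Pool.Agent.LKT

/-- a convex combination is closer than the length of the end link -/
theorem key (c v u y1 y2 : E3) (p1 p2 N A B : ℝ) (h1 : 0 < p1) (h2 : 0 < p2) (hN : N = p1 + p2)
    (hA : 0 ≤ A) (hB : 0 ≤ B * inner ℝ v u)
    (he : p1 • y1 + p2 • y2 = N • c + A • v + B • u) (n1 : ‖y1 - c‖ < ‖v‖)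
    (n2 : ‖y2 - c‖ < ‖v‖) : A < N := by
  have e : A • v + B • u = p1 • (y1 - c) + p2 • (y2 - c) := by
    have h : A • v + B • u = p1 • y1 + p2 • y2 - N • c := by rw [he]; abel
    rw [h, hN]
    module
  have hv : 0 < ‖v‖ := lt_of_le_of_lt (norm_nonneg _) n1
  have hn : ‖A • v + B • u‖ ≤ p1 * ‖y1 - c‖ + p2 * ‖y2 - c‖ := by
    rw [e]
    refine (norm_add_le _ _).trans ?_
    rw [norm_smul, norm_smul, Real.norm_eq_abs, Real.norm_eq_abs, abs_of_pos h1, abs_of_pos h2]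
  have hsq : (A * ‖v‖) ^ 2 ≤ ‖A • v + B • u‖ ^ 2 := by
    rw [@norm_add_sq_real, norm_smul, norm_smul, inner_smul_left, inner_smul_right,
      Real.norm_eq_abs, abs_of_nonneg hA]
    have h3 : 0 ≤ 2 * (A * (B * inner ℝ v u)) := by positivity
    have h4 : 0 ≤ (‖B‖ * ‖u‖) ^ 2 := by positivity
    simp only [conj_trivial]
    linarith
  have hle : A * ‖v‖ ≤ ‖A • v + B • u‖ :=
    le_of_sq_le_sq hsq (norm_nonneg _)
  have hlt : A * ‖v‖ < N * ‖v‖ := by
    rw [hN]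
    nlinarith [mul_lt_mul_of_pos_left n1 h1, mul_lt_mul_of_pos_left n2 h2]
  exact lt_of_mul_lt_mul_right hlt hv.le

/-- moving the last row to the first place -/
theorem rot (h1 : CrmStmt) (a b c d : Fin 4 → ℝ) : d4 d a b c = - d4 a b c d := by
  have e := h1.2.1
  rw [(e a d b c).1, (e a b d c).2.1, (e a b c d).2.2]
  ring

theorem dup (h1 : CrmStmt) (a b c : Fin 4 → ℝ) : d4 a b c a = 0 := by
  have h := rot h1 a b c a
  rw [h1.2.2.2 a b c] at h
  linarith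

/-- the wall of the two end links -/
theorem wlz (h1 : CrmStmt) : WlzStmt := by
  intro x hx h h11
  obtain ⟨hdis, hn0, hn7⟩ := hx
  have g2 : 0 < ((-1 : ℤ) : ℝ) * D x 0 1 3 4 := h 2 (by norm_num) (by norm_num)
  have g5 : 0 < ((1 : ℤ) : ℝ) * D x 0 1 3 7 := h 5 (by norm_num) (by norm_num)
  have g6 : 0 < ((-1 : ℤ) : ℝ) * D x 0 1 4 5 := h 6 (by norm_num) (by norm_num)
  have g8 : 0 < ((-1 : ℤ) : ℝ) * D x 0 1 4 7 := h 8 (by norm_num) (by norm_num)
  have g9 : 0 < ((-1 : ℤ) : ℝ) * D x 0 1 5 6 := h 9 (by norm_num) (by norm_num)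
  have g10 : 0 < ((1 : ℤ) : ℝ) * D x 0 1 5 7 := h 10 (by norm_num) (by norm_num)
  have g16 : 0 < ((-1 : ℤ) : ℝ) * D x 0 3 4 7 := h 16 (by norm_num) (by norm_num)
  have g18 : 0 < ((-1 : ℤ) : ℝ) * D x 0 4 5 6 := h 18 (by norm_num) (by norm_num)
  have g19 : 0 < ((1 : ℤ) : ℝ) * D x 0 4 5 7 := h 19 (by norm_num) (by norm_num)
  have g20 : 0 < ((1 : ℤ) : ℝ) * D x 0 4 6 7 := h 20 (by norm_num) (by norm_num)
  have g21 : 0 < ((-1 : ℤ) : ℝ) * D x 0 5 6 7 := h 21 (by norm_num) (by norm_num)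
  have g33 : 0 < ((1 : ℤ) : ℝ) * D x 1 3 4 7 := h 33 (by norm_num) (by norm_num)
  have g37 : 0 < ((-1 : ℤ) : ℝ) * D x 1 4 5 7 := h 37 (by norm_num) (by norm_num)
  have g39 : 0 < ((1 : ℤ) : ℝ) * D x 1 5 6 7 := h 39 (by norm_num) (by norm_num)
  have g50 : 0 < ((1 : ℤ) : ℝ) * D x 3 4 6 7 := h 50 (by norm_num) (by norm_num)
  have g52 : 0 < ((-1 : ℤ) : ℝ) * D x 4 5 6 7 := h 52 (by norm_num) (by norm_num)
  have w11 : ((1 : ℤ) : ℝ) * D x 0 1 6 7 = 0 := h11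
  push_cast at g2 g5 g6 g8 g9 g10 g16 g18 g19 g20 g21 g33 g37 g39 g50 g52 w11
  have z11 : d4 (hom x 0) (hom x 1) (hom x 6) (hom x 7) = 0 := by
    have : D x 0 1 6 7 = 0 := by linarith
    exact this
  have c0 : hom x 0 0 = 0 := rfl
  have c1 : hom x 1 0 = 1 := rfl
  have c3 : hom x 3 0 = 1 := rfl
  have c4 : hom x 4 0 = 1 := rfl
  have c5 : hom x 5 0 = 1 := rfl
  have c6 : hom x 6 0 = 1 := rfl
  have c7 : hom x 7 0 = 0 := rfl
  have hc : ∀ (j : Fin 8) (i : Fin 3), hom x j i.succ = x j i := by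
    intro j i
    fin_cases i <;> rfl
  -- the Cramer relations
  have k1 := fun i => h1.1 (hom x 0) (hom x 1) (hom x 5) (hom x 6) (hom x 7) i
  simp only [z11, zero_mul, add_zero] at k1
  have k2 := fun i => h1.1 (hom x 0) (hom x 1) (hom x 4) (hom x 5) (hom x 7) i
  have k3 := fun i => h1.1 (hom x 0) (hom x 4) (hom x 5) (hom x 6) (hom x 7) i
  have k4 := fun i => h1.1 (hom x 0) (hom x 1) (hom x 3) (hom x 4) (hom x 7) i
  change ∀ i, D x 1 5 6 7 * hom x 0 i - D x 0 5 6 7 * hom x 1 i - D x 0 1 5 7 * hom x 6 i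
    + D x 0 1 5 6 * hom x 7 i = 0 at k1
  change ∀ i, D x 1 4 5 7 * hom x 0 i - D x 0 4 5 7 * hom x 1 i + D x 0 1 5 7 * hom x 4 i
    - D x 0 1 4 7 * hom x 5 i + D x 0 1 4 5 * hom x 7 i = 0 at k2
  change ∀ i, D x 4 5 6 7 * hom x 0 i - D x 0 5 6 7 * hom x 4 i + D x 0 4 6 7 * hom x 5 i
    - D x 0 4 5 7 * hom x 6 i + D x 0 4 5 6 * hom x 7 i = 0 at k3
  change ∀ i, D x 1 3 4 7 * hom x 0 i - D x 0 3 4 7 * hom x 1 i + D x 0 1 4 7 * hom x 3 i
    - D x 0 1 3 7 * hom x 4 i + D x 0 1 3 4 * hom x 7 i = 0 at k4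
  have e1 := k1 0
  rw [c0, c1, c6, c7] at e1
  have e2 := k2 0
  rw [c0, c1, c4, c5, c7] at e2
  have e3 := k3 0
  rw [c0, c4, c5, c6, c7] at e3
  have e4 := k4 0
  rw [c0, c1, c3, c4, c7] at e4
  -- vector equations
  have v1 : (D x 0 1 5 7) • x 1 + (D x 1 5 6 7) • x 0
      = (D x 0 1 5 7) • x 6 + (-D x 0 1 5 6) • x 7 := by
    ext i
    have h5 := k1 i.succ
    simp only [hc] at h5
    simp only [PiLp.add_apply, PiLp.smul_apply, smul_eq_mul]
    linear_combination h5 - x 1 i * e1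
  have v2 : (D x 0 1 5 7) • x 4 + (-D x 0 1 4 7) • x 5
      = (D x 0 4 5 7) • x 1 + (-D x 1 4 5 7) • x 0 + (-D x 0 1 4 5) • x 7 := by
    ext i
    have h5 := k2 i.succ
    simp only [hc] at h5
    simp only [PiLp.add_apply, PiLp.smul_apply, smul_eq_mul]
    linear_combination h5
  have v3 : (-D x 0 5 6 7) • x 4 + (D x 0 4 6 7) • x 5
      = (D x 0 4 5 7) • x 6 + (-D x 0 4 5 6) • x 7 + (-D x 4 5 6 7) • x 0 := by
    ext i
    have h5 := k3 i.succ
    simp only [hc] at h5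
    simp only [PiLp.add_apply, PiLp.smul_apply, smul_eq_mul]
    linear_combination h5
  have v4 : (-D x 0 1 4 7) • x 3 + (D x 0 1 3 7) • x 4
      = (-D x 0 3 4 7) • x 1 + (D x 1 3 4 7) • x 0 + (D x 0 1 3 4) • x 7 := by
    ext i
    have h5 := k4 i.succ
    simp only [hc] at h5
    simp only [PiLp.add_apply, PiLp.smul_apply, smul_eq_mul]
    linear_combination -h5
  have v5 : (D x 0 1 5 7 / 2) • x 1 + (D x 0 1 5 7 / 2) • x 1
      = (D x 0 1 5 7) • x 6 + (-D x 0 1 5 6) • x 7 + (-D x 1 5 6 7) • x 0 := by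
    rw [← v1]
    module
  have hR : (D x 0 1 5 7) • hom x 1 + (D x 1 5 6 7) • hom x 0
      = (D x 0 1 5 7) • hom x 6 + (-D x 0 1 5 6) • hom x 7 := by
    funext i
    simp only [Pi.add_apply, Pi.smul_apply, smul_eq_mul]
    linear_combination k1 i - hom x 1 i * e1
  -- the brackets of the common point
  have lin := h1.2.2.1
  have e1' := h1.2.1
  have r1 : D x 0 1 5 7 * D x 1 4 5 7 + D x 1 5 6 7 * D x 0 4 5 7
      = D x 0 1 5 7 * D x 4 5 6 7 := by
    have a1 := lin (hom x 1) (hom x 0) (hom x 4) (hom x 5) (hom x 7) (D x 0 1 5 7) (D x 1 5 6 7)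
    have a2 := lin (hom x 6) (hom x 7) (hom x 4) (hom x 5) (hom x 7) (D x 0 1 5 7) (-D x 0 1 5 6)
    rw [hR, a2, dup h1 (hom x 7) (hom x 4) (hom x 5), (e1' (hom x 4) (hom x 6) (hom x 5) (hom x 7)).1,
      (e1' (hom x 4) (hom x 5) (hom x 6) (hom x 7)).2.1] at a1
    change (D x 0 1 5 7) * (- -(D x 4 5 6 7)) + (-D x 0 1 5 6) * 0
      = (D x 0 1 5 7) * (D x 1 4 5 7) + (D x 1 5 6 7) * D x 0 4 5 7 at a1
    linear_combination -a1
  have r2 : -(D x 0 1 5 7 * D x 0 1 4 5) = -(D x 0 1 5 7 * D x 0 4 5 6) + D x 0 1 5 6 * D x 0 4 5 7 := by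
    have a1 := lin (hom x 1) (hom x 0) (hom x 0) (hom x 4) (hom x 5) (D x 0 1 5 7) (D x 1 5 6 7)
    have a2 := lin (hom x 6) (hom x 7) (hom x 0) (hom x 4) (hom x 5) (D x 0 1 5 7) (-D x 0 1 5 6)
    rw [hR, a2, h1.2.2.2, rot h1 (hom x 0) (hom x 4) (hom x 5) (hom x 6),
      rot h1 (hom x 0) (hom x 4) (hom x 5) (hom x 7),
      (e1' (hom x 0) (hom x 1) (hom x 4) (hom x 5)).1] at a1
    change (D x 0 1 5 7) * (-D x 0 4 5 6) + (-D x 0 1 5 6) * (-D x 0 4 5 7)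
      = (D x 0 1 5 7) * (-D x 0 1 4 5) + (D x 1 5 6 7) * 0 at a1
    linear_combination -a1
  have r3 : D x 0 1 5 7 * D x 1 3 4 7 + D x 1 5 6 7 * D x 0 3 4 7
      = D x 0 1 5 7 * D x 3 4 6 7 := by
    have a1 := lin (hom x 1) (hom x 0) (hom x 3) (hom x 4) (hom x 7) (D x 0 1 5 7) (D x 1 5 6 7)
    have a2 := lin (hom x 6) (hom x 7) (hom x 3) (hom x 4) (hom x 7) (D x 0 1 5 7) (-D x 0 1 5 6)
    rw [hR, a2, dup h1 (hom x 7) (hom x 3) (hom x 4), (e1' (hom x 3) (hom x 6) (hom x 4) (hom x 7)).1,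
      (e1' (hom x 3) (hom x 4) (hom x 6) (hom x 7)).2.1] at a1
    change (D x 0 1 5 7) * (- -(D x 3 4 6 7)) + (-D x 0 1 5 6) * 0
      = (D x 0 1 5 7) * (D x 1 3 4 7) + (D x 1 5 6 7) * D x 0 3 4 7 at a1
    linear_combination -a1
  have ps : 0 < D x 0 1 5 7 := by linarith
  have pA : 0 < D x 1 5 6 7 := by linarith
  have pB : 0 < -D x 0 1 5 6 := by linarith
  have hAB : D x 1 5 6 7 < D x 0 1 5 7 ∧ -D x 0 1 5 6 < D x 0 1 5 7 := by
    rcases le_total 0 (inner ℝ (x 0) (x 7)) with hin | hin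
    · have hin' : 0 ≤ inner ℝ (x 7) (x 0) := by rw [real_inner_comm]; exact hin
      have t1 : -D x 1 4 5 7 < D x 0 4 5 7 :=
        key (x 1) (x 0) (x 7) (x 4) (x 5) _ _ _ _ _ (by linarith) (by linarith) (by linarith)
          (by linarith) (mul_nonneg (by linarith) hin) v2 (hn0 4 (by decide) (by decide))
          (hn0 5 (by decide) (by decide))
      have t2 : -D x 0 4 5 6 < D x 0 4 5 7 :=
        key (x 6) (x 7) (x 0) (x 4) (x 5) _ _ _ _ _ (by linarith) (by linarith) (by linarith)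
          (by linarith) (mul_nonneg (by linarith) hin') v3 (hn7 4 (by decide) (by decide))
          (hn7 5 (by decide) (by decide))
      have pN : 0 < D x 0 4 5 7 := by linarith
      constructor
      · have a1 : D x 0 1 5 7 * (-D x 1 4 5 7) < D x 0 1 5 7 * D x 0 4 5 7 :=
          mul_lt_mul_of_pos_left t1 ps
        have a2 : 0 < D x 0 1 5 7 * (-D x 4 5 6 7) := mul_pos ps (by linarith)
        have a3 : D x 1 5 6 7 * D x 0 4 5 7 < D x 0 1 5 7 * D x 0 4 5 7 := by linarith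
        exact lt_of_mul_lt_mul_right a3 pN.le
      · have a1 : D x 0 1 5 7 * (-D x 0 4 5 6) < D x 0 1 5 7 * D x 0 4 5 7 :=
          mul_lt_mul_of_pos_left t2 ps
        have a2 : 0 < D x 0 1 5 7 * (-D x 0 1 4 5) := mul_pos ps (by linarith)
        have a3 : (-D x 0 1 5 6) * D x 0 4 5 7 < D x 0 1 5 7 * D x 0 4 5 7 := by linarith
        exact lt_of_mul_lt_mul_right a3 pN.le
    · have hin' : inner ℝ (x 7) (x 0) ≤ 0 := by rw [real_inner_comm]; exact hin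
      have t1 : D x 1 3 4 7 < -D x 0 3 4 7 :=
        key (x 1) (x 0) (x 7) (x 3) (x 4) _ _ _ _ _ (by linarith) (by linarith) (by linarith)
          (by linarith) (mul_nonneg_of_nonpos_of_nonpos (by linarith) hin) v4
          (hn0 3 (by decide) (by decide)) (hn0 4 (by decide) (by decide))
      have t2 : -D x 0 1 5 6 < D x 0 1 5 7 :=
        key (x 6) (x 7) (x 0) (x 1) (x 1) _ _ _ _ _ (by linarith) (by linarith) (by linarith)
          (by linarith) (mul_nonneg_of_nonpos_of_nonpos (by linarith) hin') v5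
          (hn7 1 (by decide) (by decide)) (hn7 1 (by decide) (by decide))
      refine ⟨?_, t2⟩
      have pN : 0 < -D x 0 3 4 7 := by linarith
      have a1 : D x 0 1 5 7 * D x 1 3 4 7 < D x 0 1 5 7 * (-D x 0 3 4 7) :=
        mul_lt_mul_of_pos_left t1 ps
      have a2 : 0 < D x 0 1 5 7 * D x 3 4 6 7 := mul_pos ps (by linarith)
      have a3 : D x 1 5 6 7 * (-D x 0 3 4 7) < D x 0 1 5 7 * (-D x 0 3 4 7) := by linarith
      exact lt_of_mul_lt_mul_right a3 pN.le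
  obtain ⟨hA, hB⟩ := hAB
  clear g2 g5 g6 g8 g9 g10 g16 g18 g19 g20 g21 g33 g37 g39 g50 g52 w11 z11 k1 k2 k3 k4 v2 v3 v4 v5
    hR e1 e2 e3 e4 r1 r2 r3 h h11 lin e1'
  generalize D x 0 1 5 7 = s at *
  generalize D x 1 5 6 7 = A at *
  generalize -D x 0 1 5 6 = B at *
  -- the point on both links
  have w1 : x 1 + (A / s) • x 0 = x 6 + (B / s) • x 7 := by
    have e : s⁻¹ • (s • x 1 + A • x 0) = s⁻¹ • (s • x 6 + B • x 7) := by rw [v1]
    rw [smul_add, smul_add, smul_smul, smul_smul, smul_smul, smul_smul, inv_mul_cancel₀ ps.ne',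
      one_smul, one_smul] at e
    rw [div_eq_inv_mul, div_eq_inv_mul]
    exact e
  have hd := hdis 0 6 (by decide)
  have hq1 : x 1 + (A / s) • x 0 ∈ segment ℝ (x 1 + x 0) (x 1) := by
    refine ⟨A / s, 1 - A / s, (div_pos pA ps).le, ?_, by ring, ?_⟩
    · rw [sub_nonneg, div_le_one ps]
      exact hA.le
    · show (A / s) • (x 1 + x 0) + (1 - A / s) • x 1 = x 1 + (A / s) • x 0
      module
  have hq2 : x 1 + (A / s) • x 0 ∈ segment ℝ (x 6) (x 6 + x 7) := by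
    rw [w1]
    refine ⟨1 - B / s, B / s, ?_, (div_pos pB ps).le, by ring, ?_⟩
    · rw [sub_nonneg, div_le_one ps]
      exact hB.le
    · show (1 - B / s) • x 6 + (B / s) • (x 6 + x 7) = x 6 + (B / s) • x 7
      module
  exact Set.disjoint_left.1 hd hq1 hq2

end Pool.Agent.LKU.H32
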